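import Pool.Agent.H87.AX.FN

/-!
# Explicit effective Siegel theorem for all curves with an anchored field at infinity

Let `f ∈ ℤ[t][X]` be monic in `X` and squarefree, of degree `d` in `X`, of degree at most `m` in `t`,
with coefficients at most `B` in absolute value, `B ≥ 2` (the covering `f = 0` of the `t`-line may be
ramified over `t = 0`, reducible, and have any Galois group). Let `ν` be at least three times the
degree of every irreducible factor `g` of `f` over `ℚ⟦t⟧` that has a root in `ℝ⟦t^(1/e)⟧` for some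
`e ≥ 1` (a real branch of the covering over `t = 0`). Let `n ≥ 3`, `a ≥ 1` and `N ≥ (B a)^E`,
`E = 10^14 n^8 d^11 (m+1)^4 d!^7 (14 d^2)^((2d+1) m d!)`, and let `ξ` be a root of `f(a/N, X)` in a
number field `k`, of degree at least `ν` over `ℚ`.

Let `F` in `ℤ[x,y]` be irreducible over `ℚ`, of total degree at most `n`, and suppose that every point
at infinity of the curve `F = 0` whose residue field `K` has a real embedding satisfies `k ⊆ K`; that
is, for every number field `K` with a real embedding and all `X, Y` in `K((t))` with `F(X,Y) = 0`,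
either `X, Y` are in `K[[t]]` or `k` embeds in `K`. Then all integer points of `F = 0` satisfy
`max(|x|,|y|) ≤ (N H(F))^(2^((2n^2)!) d^4 (m+1)^2 d!^6)`.
-/

namespace Pool.Agent.Results.MP_821da1_nt.AnchoredCurves

open Polynomial

/-- An explicit bound, polynomial in the height of the curve, for all integer points on all curves
with an anchored field at infinity. -/
theorem result (n d m : ℕ) (hn : 3 ≤ n) (f : ℤ[X][X]) (hf : f.Monic) (hsq : Squarefree f)
    (hd : f.natDegree = d) (hm : ∀ j, (f.coeff j).natDegree ≤ m) (B a N : ℕ) (hB : 2 ≤ B)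
    (hfB : ∀ j i, |(f.coeff j).coeff i| ≤ (B : ℤ)) (ν : ℕ)
    (hν : ∀ g : (PowerSeries ℚ)[X], g.Monic → Irreducible g →
      g ∣ f.map (eval₂RingHom (Int.castRingHom (PowerSeries ℚ)) PowerSeries.X) →
      (∃ (e : ℕ) (he : e ≠ 0) (ξ : PowerSeries ℝ),
        g.eval₂ (((PowerSeries.expand e he : PowerSeries ℝ →ₐ[ℝ] PowerSeries ℝ) :
          PowerSeries ℝ →+* PowerSeries ℝ).comp (PowerSeries.map (algebraMap ℚ ℝ))) ξ = 0) →
      3 * g.natDegree ≤ ν)
    (ha : 1 ≤ a)
    (hN : (B * a) ^ (10 ^ 14 * n ^ 8 * d ^ 11 * (m + 1) ^ 4 * d.factorial ^ 7 *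
      (14 * d ^ 2) ^ ((2 * d + 1) * m * d.factorial)) ≤ N)
    (k : Type) [Field k] [NumberField k] (γ : k)
    (hγ : aeval γ (f.map (eval₂RingHom (Int.castRingHom ℚ) ((a : ℚ) / N))) = 0)
    (hγν : ν ≤ (minpoly ℚ γ).natDegree)
    (F : MvPolynomial (Fin 2) ℤ) (hdeg : F.totalDegree ≤ n)
    (hirr : Irreducible (MvPolynomial.map (Int.castRingHom ℚ) F))
    (hinf : ∀ (K : Type) [Field K] [NumberField K], Nonempty (K →+* ℝ) →
      ∀ X Y : LaurentSeries K, MvPolynomial.eval₂ (Int.castRingHom (LaurentSeries K)) ![X, Y] F = 0 →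
        (X ∈ (HahnSeries.ofPowerSeries ℤ K).range ∧ Y ∈ (HahnSeries.ofPowerSeries ℤ K).range) ∨
          Nonempty (k →+* K))
    (x y : ℤ) (hxy : MvPolynomial.eval ![x, y] F = 0) :
    max |x| |y| ≤ ((N : ℤ) * ((F.support.sup fun e => (F.coeff e).natAbs : ℕ) : ℤ)) ^
      (2 ^ (2 * n ^ 2).factorial * (d ^ 4 * (m + 1) ^ 2 * d.factorial ^ 6)) := by
  have hd1 : 1 ≤ d := by
    by_contra hc
    have h0 : d = 0 := by omega
    have h1 : f = 1 := hf.natDegree_eq_zero.1 (hd.trans h0)
    rw [h1, Polynomial.map_one, map_one] at hγ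
    exact one_ne_zero hγ
  have hBa : 1 ≤ B * a := Nat.mul_pos (by omega) ha
  have hN' : (B * a) ^ Pool.Agent.H87.SA2.E1 (n * (n + 1)) d m ≤ N :=
    (Nat.pow_le_pow_right hBa (Pool.Agent.H87.AX.E1_le hn)).trans hN
  have hz : Pool.Agent.H34.AC.vl F x y = 0 := by
    unfold Pool.Agent.H34.AC.vl
    rw [← hxy, MvPolynomial.eval, MvPolynomial.coe_eval₂Hom]
    congr 1
  have h1 := Pool.Agent.H87.AX.all_explicit hn hf hsq hd hm hB hfB (nu := ν) (by
    rintro g h1 h2 h3 ⟨e, he, ξ, hξ⟩
    refine hν g h1 h2 h3 ⟨e, he, ξ, ?_⟩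
    rw [eval_map] at hξ
    exact hξ) ha hN' γ hγ hγν F hdeg hirr hinf x y hz
  refine h1.trans ?_
  have hP : 1 ≤ (N : ℤ) * ((F.support.sup fun e => (F.coeff e).natAbs : ℕ) : ℤ) := by
    have hNpos : 1 ≤ N := (Nat.one_le_pow _ _ hBa).trans hN
    have hHpos : 1 ≤ F.support.sup fun e => (F.coeff e).natAbs := by
      have hF0 : F ≠ 0 := by
        rintro rfl
        rw [map_zero] at hirr
        exact not_irreducible_zero hirr
      obtain ⟨e, he⟩ := MvPolynomial.support_nonempty.2 hF0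
      have h2 : (F.coeff e).natAbs ≤ F.support.sup fun e => (F.coeff e).natAbs :=
        Finset.le_sup (f := fun e => (F.coeff e).natAbs) he
      have h3 : F.coeff e ≠ 0 := MvPolynomial.mem_support_iff.1 he
      have h4 : 1 ≤ (F.coeff e).natAbs := Int.natAbs_pos.2 h3
      omega
    exact_mod_cast Nat.mul_pos hNpos hHpos
  exact pow_le_pow_right₀ hP (Pool.Agent.H87.AX.E2X_le hn hd1)

end Pool.Agent.Results.MP_821da1_nt.AnchoredCurves
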