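import Pool.Agent.H97.AN.Fin

/-!
# Effective Siegel theorem for curves whose root field contains a radical close to 1

Let `n ≥ 4`, `3 ≤ ν ≤ n`, and let `a ≠ b` be coprime positive integers with
`2^(1100 n^5) ≤ a` and `|b - a|^(100 n) ≤ a`. Let `F` in `ℤ[x,y]` have total degree at most `n`,
irreducible leading form `F_n`, and let the root field `ℚ[z]/(F_n(1,z))` contain an element `γ`
with `a γ^ν = b`. The terms of degree less than `n` are arbitrary. Then all integer points of
`F = 0` satisfy `max(|x|,|y|) ≤ a^(15000 n^4) H(F)^(400000 n^7)`.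
For example `F = a x^n - b y^n + G(x,y)` with any `G` of degree less than `n`.
-/

namespace Pool.Agent.Results.MP_821da1_nt.AnchoredRadical

open MvPolynomial

/-- Explicit bound for all integer points. -/
theorem result (n ν : ℕ) (hn : 4 ≤ n) (hν : 3 ≤ ν) (hνn : ν ≤ n) (a b : ℤ) (hb : 0 < b)
    (hab : IsCoprime a b) (hne : a ≠ b) (ha : 2 ^ (1100 * n ^ 5) ≤ a)
    (hδ : |b - a| ^ (100 * n) ≤ a) (F : MvPolynomial (Fin 2) ℤ) (hdeg : F.totalDegree ≤ n)
    (hirr : Irreducible (map (Int.castRingHom ℚ) (homogeneousComponent n F)))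
    (hroot : ∃ γ : AdjoinRoot (aeval ![(1 : Polynomial ℚ), Polynomial.X]
        (homogeneousComponent n F)),
      (a : AdjoinRoot (aeval ![(1 : Polynomial ℚ), Polynomial.X]
        (homogeneousComponent n F))) * γ ^ ν = b)
    (x y : ℤ) (hxy : eval ![x, y] F = 0) :
    max |x| |y| ≤ a ^ (15000 * n ^ 4) *
      ((F.support.sup fun m => (coeff m F).natAbs : ℕ) : ℤ) ^ (400000 * n ^ 7) :=
  Pool.Agent.H97.AN.anchored_poly hn hν hνn (by omega) hab hne ha hδ F hdeg hirr hroot x y hxy

end Pool.Agent.Results.MP_821da1_nt.AnchoredRadical
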