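import Pool.Agent.H97.FB.FIN

/-!
# The effective Siegel theorem for 100 per cent of the fields of every one-parameter family

Let `f ∈ ℤ[t][Z]` be absolutely irreducible, of degree `n ≥ 5` in `Z`, of degree at most `m` in `t`.
For an integer `a ≥ 1` let `f(a, Z)` be the fibre. We say that the effective Siegel theorem holds at
`a` (`Good d C f a`) if `f(a, Z)` is irreducible over `ℚ` and every curve `F = 0`, `F ∈ ℤ[x,y]`
irreducible over `ℚ`, of total degree at most `d`, with coefficients at most `H` in absolute value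
(`H ≥ 2`), all of whose points at infinity with real residue field carry a root of `f(a, Z)`, has all
its integer points in `max(|x|,|y|) ≤ (a H)^C`.

There is a number `C = C(n, m, d)` such that for every such `f` with coefficients at most `B ≥ 2`
* for every `X ≥ B^C` the theorem holds at all but at most `C` of the integers `a` in
  `[X, X + X^(1/C)]`;
* it holds at all but `O(T^(1-1/C))` of the integers `1 ≤ a ≤ T`.
-/

namespace Pool.Agent.H97.Old.Families5

open Polynomial

/-- the fibre `f(a, Z)` -/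
noncomputable def fiber (f : ℤ[X][X]) (a : ℕ) : ℤ[X] := f.map (evalRingHom (a : ℤ))

/-- all points at infinity of the curve `F = 0` with real residue field carry a root of `g`: for
every number field `K` with a real embedding and all `X, Y` in `K((t))` with `F(X,Y) = 0`, either
`X, Y` are in `K[[t]]` or `K` contains a root of `g` -/
def Carries (g : ℤ[X]) (F : MvPolynomial (Fin 2) ℤ) : Prop :=
  ∀ (K : Type) [Field K] [NumberField K], Nonempty (K →+* ℝ) → ∀ X Y : LaurentSeries K,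
    MvPolynomial.eval₂ (Int.castRingHom (LaurentSeries K)) ![X, Y] F = 0 →
    (X ∈ (HahnSeries.ofPowerSeries ℤ K).range ∧ Y ∈ (HahnSeries.ofPowerSeries ℤ K).range) ∨
      ∃ θ : K, aeval θ g = 0

/-- the effective Siegel theorem, with a bound polynomial in the height, holds at `a` -/
def Good (d C : ℕ) (f : ℤ[X][X]) (a : ℕ) : Prop :=
  Irreducible ((fiber f a).map (Int.castRingHom ℚ)) ∧
  ∀ F : MvPolynomial (Fin 2) ℤ, Irreducible (MvPolynomial.map (Int.castRingHom ℚ) F) →
    F.totalDegree ≤ d → Carries (fiber f a) F → ∀ H : ℕ, 2 ≤ H → (∀ e, |F.coeff e| ≤ (H : ℤ)) →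
    ∀ x y : ℤ, MvPolynomial.eval ![x, y] F = 0 → max |x| |y| ≤ (((a * H) ^ C : ℕ) : ℤ)

private theorem good_iff {d C : ℕ} {f : ℤ[X][X]} {a : ℕ} (h : Pool.Agent.H97.FB.GoodF d C f a) :
    Good d C f a := by
  refine ⟨h.1, ?_⟩
  intro F h1 h2 h3 H h4 h5 x y h6
  have hz : Pool.Agent.H34.AC.vl F x y = 0 := by
    unfold Pool.Agent.H34.AC.vl
    rw [← h6, MvPolynomial.eval, MvPolynomial.coe_eval₂Hom]
    congr 1
  have h7 := h.2 F h1 h2 h3 H h4 h5 x y hz
  rw [Int.abs_eq_natAbs, Int.abs_eq_natAbs]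
  exact_mod_cast h7

/-- **Families.** The effective Siegel theorem with a polynomial bound, for 100 per cent of the
fields generated by the fibres of an arbitrary one-parameter family of degree at least `5`. -/
theorem result (n m d : ℕ) (hn : 5 ≤ n) (hm : 1 ≤ m) (hd : 3 ≤ d) : ∃ C : ℕ, 2 ≤ C ∧
    ∀ f : ℤ[X][X], f.natDegree = n → (∀ i, (f.coeff i).natDegree ≤ m) →
      Irreducible (f.map (mapRingHom (Int.castRingHom ℂ))) →
      (∀ B X0 : ℕ, 2 ≤ B → (∀ i j, |(f.coeff i).coeff j| ≤ (B : ℤ)) → B ^ C ≤ X0 →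
        ∃ E : Finset ℕ, E.card ≤ C ∧ ∀ a : ℕ, X0 ≤ a → (a - X0) ^ C ≤ X0 → a ∉ E →
          Good d C f a) ∧
      ∃ K : ℝ, ∀ T : ℕ, 1 ≤ T →
        (((Set.Icc 1 T) ∩ {a | ¬ Good d C f a}).ncard : ℝ) ≤
          K * (T : ℝ) ^ (1 - 1 / (C : ℝ)) := by
  obtain ⟨C, hC, h⟩ := Pool.Agent.H97.FB.families n m d hn hm hd
  refine ⟨C, hC, fun f hf hfm hirr => ?_⟩
  obtain ⟨h1, K, h2⟩ := h f hf hfm hirr
  refine ⟨?_, K, ?_⟩
  · intro B X0 hB hfB hX
    obtain ⟨E, hE, hE2⟩ := h1 B X0 hB hfB hX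
    exact ⟨E, hE, fun a h3 h4 h5 => good_iff (hE2 a h3 h4 h5)⟩
  · intro T hT
    refine le_trans ?_ (h2 T hT)
    have h3 : (Set.Icc 1 T) ∩ {a | ¬ Good d C f a} ⊆
        (Set.Icc 1 T) ∩ {a | ¬ Pool.Agent.H97.FB.GoodF d C f a} := by
      rintro a ⟨h4, h5⟩
      exact ⟨h4, fun h6 => h5 (good_iff h6)⟩
    have h4 := Set.ncard_le_ncard h3 ((Set.finite_Icc 1 T).inter_of_left _)
    exact_mod_cast h4

end Pool.Agent.H97.Old.Families5
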