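import Pool.Agent.H97.NW.NWF

/-!
# No windows for one hundred per cent of the radical fields

Let `r ≥ 11` and `d ≥ 3`. There is a constant `C` depending only on `r` and `d` with the following
properties. Call a positive rational number `β` exceptional if there are a polynomial `F ∈ ℤ[x,y]`,
irreducible over `ℚ`, of total degree at most `d`, with coefficients of absolute value at most `H`,
`H ≥ 2`, all of whose points at infinity defined over a number field `K` with a real embedding carry an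
`r`-th root of `β` in `K`, and an integer point `(x,y)` of `F = 0` with
`max(|x|,|y|) > (max(|num β|, den β) H)^C`.
(i) For every rational `ω > 0` with `X^r - ω` irreducible over `ℚ` there are only finitely many `β` with
`X^r - β`, `X^r - ω β` irreducible such that `β` and `ω β` are both exceptional.
(ii) For every `ε > 0` there is `T₀` such that for all `T ≥ T₀` and all `b ≥ 1`, all but at most `ε T` of the
positive integers `a ≤ T` are such that `X^r - a/b` is irreducible and `a/b` is not exceptional.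
-/

namespace Pool.Agent.Results.MP_821da1_nt.NoWindows

open Polynomial Pool.Agent.H97.NW

/-- some curve of degree at most `d`, all of whose real points at infinity carry an `r`-th root of `β`,
has an integer point of size larger than `(max(|num β|, den β) * H)^C`, `H` a bound for its height -/
def Exceptional (r d C : ℕ) (β : ℚ) : Prop :=
  ∃ (F : MvPolynomial (Fin 2) ℤ) (H : ℕ) (x y : ℤ), F.totalDegree ≤ d ∧
    Irreducible (MvPolynomial.map (Int.castRingHom ℚ) F) ∧
    (∀ (K : Type) [Field K] [NumberField K], Nonempty (K →+* ℝ) → ∀ X Y : LaurentSeries K,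
      MvPolynomial.eval₂ (Int.castRingHom (LaurentSeries K)) ![X, Y] F = 0 →
        (X ∈ (HahnSeries.ofPowerSeries ℤ K).range ∧ Y ∈ (HahnSeries.ofPowerSeries ℤ K).range) ∨
          ∃ θ : K, θ ^ r = (β : K)) ∧
    2 ≤ H ∧ (∀ m, |MvPolynomial.coeff m F| ≤ (H : ℤ)) ∧ MvPolynomial.eval ![x, y] F = 0 ∧
    ((max β.num.natAbs β.den : ℕ) * (H : ℤ)) ^ C < max |x| |y|

theorem vl_eval (F : MvPolynomial (Fin 2) ℤ) (x y : ℤ) :
    Pool.Agent.H34.AC.vl F x y = MvPolynomial.eval ![x, y] F := by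
  unfold Pool.Agent.H34.AC.vl
  rw [← MvPolynomial.eval₂_id]
  congr 1

theorem max_abs (x y : ℤ) : max |x| |y| = ((max x.natAbs y.natAbs : ℕ) : ℤ) := by
  rw [Int.abs_eq_natAbs, Int.abs_eq_natAbs]
  push_cast
  rfl

theorem exc_of {r d C : ℕ} {β : ℚ} (h0 : 0 < β)
    (h1 : Irreducible (X ^ r - Polynomial.C β : ℚ[X])) (h : Exceptional r d C β) :
    β ∈ Exc r d C := by
  obtain ⟨F, H, x, y, h2, h3, h4, h5, h6, h7, h8⟩ := h
  refine ⟨h0, h1, F, h3, h2, h4, H, h5, h6, x, y, ?_, ?_⟩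
  · rw [vl_eval]
    exact h7
  · rw [max_abs] at h8
    unfold hgt
    exact_mod_cast h8

theorem not_exceptional {r d C : ℕ} {β : ℚ} (h : Good r d C β) : ¬ Exceptional r d C β := by
  rintro ⟨F, H, x, y, h2, h3, h4, h5, h6, h7, h8⟩
  have h9 := h.2 F h3 h2 h4 H h5 h6 x y (by rw [vl_eval]; exact h7)
  rw [max_abs] at h8
  unfold hgt at h9
  have h10 : (max β.num.natAbs β.den * H) ^ C < max x.natAbs y.natAbs := by exact_mod_cast h8
  omega

/-- for every ratio only finitely many exceptional pairs; density zero of the exceptional radicals,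
uniformly in the denominator -/
theorem result (r d : ℕ) (hr : 11 ≤ r) (hd : 3 ≤ d) : ∃ C : ℕ,
    (∀ ω : ℚ, 0 < ω → Irreducible (X ^ r - Polynomial.C ω : ℚ[X]) →
      {β : ℚ | 0 < β ∧ Irreducible (X ^ r - Polynomial.C β : ℚ[X]) ∧
        Irreducible (X ^ r - Polynomial.C (ω * β) : ℚ[X]) ∧ Exceptional r d C β ∧
        Exceptional r d C (ω * β)}.Finite) ∧
    (∀ ε : ℝ, 0 < ε → ∃ T₀ : ℕ, ∀ T : ℕ, T₀ ≤ T → ∀ b : ℕ, 1 ≤ b →
      ({a : ℕ | 1 ≤ a ∧ a ≤ T ∧ ¬ (Irreducible (X ^ r - Polynomial.C ((a : ℚ) / b) : ℚ[X]) ∧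
        ¬ Exceptional r d C ((a : ℚ) / b))}.ncard : ℝ) ≤ ε * T) := by
  classical
  obtain ⟨C, hC⟩ := fin_pairs r d hr hd
  refine ⟨C, ?_, ?_⟩
  · intro ω hω hωi
    refine (hC ω hω hωi).subset ?_
    rintro β ⟨h0, h1, h2, h3, h4⟩
    exact ⟨exc_of h0 h1 h3, exc_of (mul_pos hω h0) h2 h4⟩
  · intro ε hε
    obtain ⟨T0, hT0⟩ := good_dens r d C (by omega) hC ε hε
    refine ⟨T0, fun T hT b hb => ?_⟩
    refine le_trans ?_ (hT0 T hT b hb)
    have hsub : {a : ℕ | 1 ≤ a ∧ a ≤ T ∧ ¬ (Irreducible (X ^ r - Polynomial.C ((a : ℚ) / b) : ℚ[X]) ∧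
        ¬ Exceptional r d C ((a : ℚ) / b))} ⊆
        (((Finset.Icc 1 T).filter fun a : ℕ => ¬ Good r d C ((a : ℚ) / b) : Finset ℕ) : Set ℕ) := by
      rintro a ⟨h1, h2, h3⟩
      rw [Finset.mem_coe, Finset.mem_filter, Finset.mem_Icc]
      refine ⟨⟨h1, h2⟩, fun hg => h3 ⟨hg.1, not_exceptional hg⟩⟩
    have h := Set.ncard_le_ncard hsub (Finset.finite_toSet _)
    rw [Set.ncard_coe_finset] at h
    exact_mod_cast h

end Pool.Agent.Results.MP_821da1_nt.NoWindows
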