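import Pool.Agent.H37.SI.Uni

/-!
# MP_821da1_nt: effective Siegel bounds for all but boundedly many a in every short interval

Let `n ≥ 2`, `d ≥ 1`, and let `F` in `ℤ[t]` be squarefree over `ℚ`, of degree `D`, with `F(0) ≠ 0` and
`n D ≥ 3`; put `Phi(u,v) = ∑ F_i u^i v^(D-i)`. Consider the curves `Phi(b P^n, a Q^n) = G` where `P`, `Q`, `G` in
`ℤ[x,y]` are such that `P` and `Q` have degree at most `d`, the homogeneous parts of degree `d` of `P` and `Q` have no
common complex zero except `(0,0)`, `G` has degree at most `d (n D - 3)`, and `H ≥ 1` bounds the absolute values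
of all coefficients of `G`, `P`, `Q`.

There are natural numbers `C`, `J` and a real number `del > 0` such that for all `X ≥ C` and all `1 ≤ b ≤ X^2`
there are sets `E`, `S` of at most `J` naturals such that for all integers `a` in the short interval
`[X, X + X^del]`, `a` not in `E`, and all these curves, every integer point `(x,y)` satisfies
`max(|x|,|y|) ≤ (X H)^C` or lies in one of the windows given by `S`: `M ≤ max(|x|,|y|)^C` and
`max(|x|,|y|) ≤ M^C` for some `M` in `S`. If `n D ≥ 5` and `deg G ≤ d (n D - 4) - 1` there are no windows: all the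
integer points satisfy `max(|x|,|y|) ≤ (X H)^C`.

The proof shows that the fields `ℚ((X+c)^(1/n))`, `|c| ≤ X^del`, repel each other: as functions of `w = 1/X` the
radicals `(1 + c w)^(1/n)` all coincide at `w = 0`.
-/

namespace Pool.Agent.Results.MP_821da1_nt.ShortIntervals

open MvPolynomial

/-- All but at most `J` of the integers `a` of every interval `[X, X + X^del]`: the integer points of all curves
`Phi(b P^n, a Q^n) = G` of the family are bounded polynomially or in one of at most `J` windows; there are no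
windows if `deg G ≤ d (n D - 4) - 1`. -/
theorem result (n d : ℕ) (hn : 2 ≤ n) (hd : 1 ≤ d) (F : Polynomial ℤ) (hnD : 3 ≤ n * F.natDegree)
    (hF0 : F.coeff 0 ≠ 0) (hsq : Squarefree (F.map (Int.castRingHom ℚ))) :
    ∃ (C J : ℕ) (del : ℝ), 0 < del ∧ ∀ X : ℕ, C ≤ X → ∀ b : ℕ, 1 ≤ b → b ≤ X ^ 2 →
      ∃ E S : Finset ℕ, E.card ≤ J ∧ S.card ≤ J ∧
        ∀ a : ℕ, X ≤ a → (a : ℝ) ≤ X + (X : ℝ) ^ del → a ∉ E →
          ∀ (G P Q : MvPolynomial (Fin 2) ℤ) (H : ℕ), 1 ≤ H →
            G.totalDegree ≤ d * (n * F.natDegree - 3) → P.totalDegree ≤ d → Q.totalDegree ≤ d →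
            (∀ z w : ℂ, aeval ![z, w] (homogeneousComponent d P) = 0 →
              aeval ![z, w] (homogeneousComponent d Q) = 0 → z = 0 ∧ w = 0) →
            (∀ e, |G.coeff e| ≤ H) → (∀ e, |P.coeff e| ≤ H) → (∀ e, |Q.coeff e| ≤ H) →
            ∀ x y : ℤ,
              ∑ i ∈ Finset.range (F.natDegree + 1),
                F.coeff i * ((b : ℤ) * (eval ![x, y] P) ^ n) ^ i *
                  ((a : ℤ) * (eval ![x, y] Q) ^ n) ^ (F.natDegree - i) = eval ![x, y] G →
              (max |x| |y| ≤ ((X : ℤ) * H) ^ C ∨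
                ∃ M ∈ S, (M : ℤ) ≤ (max |x| |y|) ^ C ∧ max |x| |y| ≤ (M : ℤ) ^ C) ∧
              (5 ≤ n * F.natDegree → G.totalDegree ≤ d * (n * F.natDegree - 4) - 1 →
                max |x| |y| ≤ ((X : ℤ) * H) ^ C) := by
  obtain ⟨C, J, del, hdel, h⟩ := H37SI.main_uni n d hn hd F hnD hF0 hsq
  refine ⟨C, J, del, hdel, fun X hX b hb hbX => ?_⟩
  obtain ⟨E, S, hE, hS, h⟩ := h X hX b hb hbX
  refine ⟨E, S, hE, hS, fun a ha1 ha2 ha3 G P Q H hH hG hP hQ hco hG' hP' hQ' x y heq => ?_⟩
  obtain ⟨h1, h2⟩ := h a ha1 ha2 ha3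
  exact ⟨h1 G P Q H hH hG hP hQ hco hG' hP' hQ' x y heq,
    fun h5 hG5 => h2 h5 G P Q H hH hG5 hP hQ hco hG' hP' hQ' x y heq⟩

end Pool.Agent.Results.MP_821da1_nt.ShortIntervals
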